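import Pool.Agent.helper69.GR2B.Spec

set_option autoImplicit false

open Complex Metric Set Filter Topology MeasureTheory
open MPS (om)
open PPS (pre TT fd)
open XPS (Df er dens tau)
open Pool.Agent.helper16.Multibrot

noncomputable section

namespace GR

theorem BPA (hPAI : PAI_stmt) : BPA_stmt := by
  intro t ν x₁ x₂ y₁ y₂ ht hν hx₁ hx₂ hy₁ hy₂
  have hn : ∀ z : ℂ, ‖z / (t : ℂ)‖ = ‖z‖ / t := by
    intro z
    rw [norm_div, Complex.norm_real, Real.norm_eq_abs, abs_of_pos ht]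
  have h := hPAI (y₁ / t) (ν / t) (y₁ / t) (y₂ / t) (x₁ / t) (x₂ / t)
    (by rw [hn, le_div_iff₀ ht]; linarith)
    (by rw [hn, le_div_iff₀ ht]; linarith)
    (by rw [sub_self, norm_zero, hn]; positivity)
    (by
      rw [← add_div, hn, hn, add_comm y₂ y₁]
      rw [← mul_div_assoc]
      exact div_le_div_of_nonneg_right hy₂ ht.le)
    (by
      rw [← sub_div, hn, hn, ← mul_div_assoc]
      exact div_le_div_of_nonneg_right hx₁ ht.le)
    (by
      rw [← sub_div, hn, hn, ← mul_div_assoc]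
      exact div_le_div_of_nonneg_right hx₂ ht.le)
  rw [← add_div, ← add_div, hn, hn, hn, hn, hn, hn] at h
  have h2 : (‖y₁‖ / t + ‖x₁‖ / t - ‖y₁ + x₁‖ / t) + (‖y₂‖ / t + ‖x₂‖ / t - ‖y₂ + x₂‖ / t) =
      ((‖x₁‖ + ‖y₁‖ - ‖x₁ + y₁‖) + (‖x₂‖ + ‖y₂‖ - ‖x₂ + y₂‖)) / t := by
    rw [add_comm y₁ x₁, add_comm y₂ x₂]
    ring
  rw [h2, le_div_iff₀ ht] at h
  linarith

end GR
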